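import Pool.Agent.H27.HankG

/-! The Hankel determinants of the binary digit sum are 2-automatic modulo every positive integer. -/

namespace Pool.Agent.Results.MP_47b218_nt.Full
open Finset Pool.Agent.H27.Hank

set_option maxHeartbeats 400000

/-- The Hankel determinant of the binary digit sum. -/
def H (n : ℕ) : ℤ := (Matrix.of fun i j : Fin n => (((Nat.digits 2 (i.1 + j.1)).sum : ℕ) : ℤ)).det

/-- The 2-kernel of a sequence. -/
def kernel (a : ℕ → ℤ) : Set (ℕ → ℤ) := {b | ∃ e r : ℕ, r < 2 ^ e ∧ b = fun n => a (2 ^ e * n + r)}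

theorem HD (n : ℕ) : H n = (-1) ^ (n / 2) * h 0 n := by
  have e : (∑ i ∈ range n, i) % 2 = n / 2 % 2 := by
    induction n with
    | zero => rfl
    | succ n ih => rw [sum_range_succ]; rcases Nat.mod_two_eq_zero_or_one n with h | h <;> omega
  have s : Equiv.Perm.sign (Fin.revPerm : Equiv.Perm (Fin n)) = (-1) ^ (n / 2) := by
    rw [Equiv.Perm.sign_eq_prod_prod_Iio, prod_congr rfl fun j _ => prod_congr rfl fun i hi =>
      if_neg (by simpa using (mem_Iio.mp hi).le)]
    simp only [prod_const, Fin.card_Iio, prod_pow_eq_pow_sum]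
    rw [Fin.sum_univ_eq_sum_range fun i => i, ← Nat.div_add_mod (∑ i ∈ range n, i) 2, e, ← Nat.div_add_mod (n / 2) 2]
    simp [pow_add, pow_mul]
  refine Eq.trans (congrArg Matrix.det ?_) ((Matrix.det_permute' Fin.revPerm _).trans (by rw [s]; simp; rfl))
  ext i j
  have := j.2
  simp only [M, Matrix.submatrix_apply, Matrix.of_apply, id, Fin.revPerm_apply, Fin.val_rev, sd, add_zero]
  congr 3
  omega

abbrev S (m : ℕ) := ZMod m × ZMod m × ZMod m × ZMod m × ZMod m × ZMod m × ZMod m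

def V (m n : ℕ) : S m := (x 0 n, x (-1) n, y n, h 0 n, h (-1) n, (-1) ^ n, (-1) ^ (n / 2))

def P0 {m : ℕ} : S m → S m := fun (a, b, c, d, e, f, _) =>
  (2 * b * a - a ^ 2, 2 * (2 * b - a) * a - a ^ 2, f * a * c, f * (d * b + e * a - e * b),
    f * (e * b + (2 * e - d) * a - (2 * e - d) * b), 1, f)

def P1 {m : ℕ} : S m → S m → S m := fun (a, b, c, _, _, f, _) (a', _, _, d, e, _, _) =>
  (-c ^ 2, -2 * c ^ 2, a' * c, d * b + e * a - e * b, e * b + (2 * e - d) * a - (2 * e - d) * b, -1, f)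

theorem ax (n : ℕ) : x (-1 - 1) n = 2 * x (-1) n - x 0 n := aff _ _ _
theorem ah (n : ℕ) : h (-1 - 1) n = 2 * h (-1) n - h 0 n := aff _ _ _

theorem V0 (m n : ℕ) : V m (2 * n) = P0 (V m n) := by
  rw [V, show 2 * n / 2 = n by omega, pow_mul, two_mul]
  simp only [V, P0, hx0, hy0, hh0, ax, ah, zero_sub]
  simp

theorem V1 (m n : ℕ) : V m (2 * n + 1) = P1 (V m n) (V m (n + 1)) := by
  rw [V, show (2 * n + 1) / 2 = n by omega, pow_succ, pow_mul, show 2 * n + 1 = n + 1 + n by ring]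
  simp only [V, P1, hx1, hy1, hh1, ax, ah, zero_sub]
  norm_num

theorem result (m : ℕ) (hm : 0 < m) : (kernel fun n => H (n + 1) % m).Finite := by
  haveI : NeZero m := ⟨hm.ne'⟩
  refine (Set.finite_range fun (G : S m × S m → ZMod m) n => ((G (V m n, V m (n + 1))).val : ℤ)).subset ?_
  rintro _ ⟨e, r, hr, rfl⟩
  suffices ∃ G : S m × S m → S m × S m, ∀ n, (V m (2 ^ e * n + r), V m (2 ^ e * n + r + 1)) = G (V m n, V m (n + 1)) by
    obtain ⟨G, hG⟩ := this
    refine ⟨fun w => (G w).2.2.2.2.2.2.2 * (G w).2.2.2.2.1, funext fun n => ?_⟩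
    simp only [← hG]
    simp only [V, HD, ← ZMod.val_intCast]
    simp
  induction e generalizing r with
  | zero => exact ⟨id, fun n => by simp [show r = 0 by omega]⟩
  | succ e ih =>
    obtain ⟨G, hG⟩ := ih (r / 2) (by omega)
    obtain ⟨j, rfl | rfl⟩ : ∃ j, r = 2 * j ∨ r = 2 * j + 1 := ⟨r / 2, by omega⟩
    · refine ⟨fun w => (P0 (G w).1, P1 (G w).1 (G w).2), fun n => ?_⟩
      simp only [← hG]
      rw [show 2 ^ (e + 1) * n + 2 * j = 2 * (2 ^ e * n + j) by ring, V0, V1, show 2 * j / 2 = j by omega]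
    · refine ⟨fun w => (P1 (G w).1 (G w).2, P0 (G w).2), fun n => ?_⟩
      simp only [← hG]
      rw [show 2 ^ (e + 1) * n + (2 * j + 1) = 2 * (2 ^ e * n + j) + 1 by ring, V1,
        show 2 * (2 ^ e * n + j) + 1 + 1 = 2 * (2 ^ e * n + j + 1) by ring, V0, show (2 * j + 1) / 2 = j by omega]

end Pool.Agent.Results.MP_47b218_nt.Full
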